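import Pool.Agent.Y558.AM.Out

/-!
# No countable transitive model of ZFC and GCH decides amalgamation absolutely

The definitions of transitive models, of the infinitary sentences of a model and of their models
and embeddings, evaluated in a transitive model of set theory, are those of
`Pool.Agent.W868.Defs` and `Pool.Agent.W868.GDefs`.
-/

set_option autoImplicit false

namespace Pool.Agent.Results.MP_fbd45d_lc.EveryModel

open Pool.Agent.W868

/-- `V` is a countable transitive model of ZFC and GCH that contains the ordinal `α`, and `α` is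
countable in `V`. -/
structure ModelWith (α : ZFSet.{0}) (V : Set ZFSet.{0}) : Prop where
  countable : V.Countable
  zfc : IsZFC V
  gch : GCH V
  mem : α ∈ V
  countable_mem : ∃ f ∈ V, IsInj α ZFSet.omega f

/-- For every ordinal `β ≠ 0` of `M`, the sentence `φ` has in `M` models of size `ℵ_β`, and these
satisfy amalgamation in `M`. -/
def AmalgamationEverywhere (M : Set ZFSet.{0}) (φ : ZFSet.{0}) : Prop :=
  ∀ β ∈ M, β.IsOrdinal → β ≠ ∅ → (∃ κ, IsAleph M β κ) ∧
    ∀ κ, IsAleph M β κ → (∃ D c, ModK M κ φ D c) ∧ AP M κ φ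

/-- For every ordinal `β ≠ 0` of `M`, the sentence `φ` has in `M` models of size `ℵ_β`, and these
do not satisfy amalgamation in `M`. -/
def AmalgamationNowhere (M : Set ZFSet.{0}) (φ : ZFSet.{0}) : Prop :=
  ∀ β ∈ M, β.IsOrdinal → β ≠ ∅ → (∃ κ, IsAleph M β κ) ∧
    ∀ κ, IsAleph M β κ → (∃ D c, ModK M κ φ D c) ∧ ¬ AP M κ φ

/-- Let `α` be a countable ordinal. There is a countable transitive model of ZFC and GCH in which
`α` is countable. For every such model `V` there are another such model `W` and a set `φ` in both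
that both models regard as a sentence of the infinitary logic, such that either amalgamation for
the models of `φ` of size `ℵ_β` fails in `V` for all `β ≥ 1` and holds in `W` for all `β ≥ 1`, or
it holds in `V` for all `β ≥ 1` and fails in `W` for all `β ≥ 1`, and `W ⊆ V` in this case. -/
theorem result (α : ZFSet.{0}) (hα : α.IsOrdinal) (hc : {x | x ∈ α}.Countable) :
    (∃ V : Set ZFSet.{0}, ModelWith α V) ∧
    ∀ V : Set ZFSet.{0}, ModelWith α V → ∃ W : Set ZFSet.{0}, ModelWith α W ∧
      ∃ φ ∈ V, φ ∈ W ∧ IsSentence V φ ∧ IsSentence W φ ∧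
        ((AmalgamationNowhere V φ ∧ AmalgamationEverywhere W φ) ∨
          (AmalgamationEverywhere V φ ∧ AmalgamationNowhere W φ ∧ W ⊆ V)) := by
  refine ⟨?_, fun V hV => ?_⟩
  · obtain ⟨V, h1, h2, h3, h4, h5⟩ := Pool.Agent.Y558.AM.exists_V hα hc
    exact ⟨V, h1, h2, h3, h4, h5⟩
  · obtain ⟨W, h1, h2, h3, h4, h5, φ, h6, h7, h8, h9, h10⟩ :=
      Pool.Agent.Y558.AM.everyModel hV.countable hV.zfc hV.gch hV.mem hα hV.countable_mem
    exact ⟨W, ⟨h1, h2, h3, h4, h5⟩, φ, h6, h7, h8, h9, h10⟩

end Pool.Agent.Results.MP_fbd45d_lc.EveryModel
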